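import Pool.Agent.T6.H47.CR.Red
import Pool.Agent.T6.H47.CR.Upper

/-!
# `M[1]` and `W[1]`: reductions of exponential communication rank

We consider truth-table reductions from `p-CLIQUE` to satisfiability (`IsReduction`,
`Pool/Agent/T6/H47/CR/Defs.lean`). For a graph `G` with `n` vertices and for each of `q` questions and
each possible clause with at most `d` literals over `v` variables there is a bit that says whether the
clause belongs to the formula of the question; the `q` answers are evaluated by an arbitrary function.
The only restriction is on the communication rank of these bits over some field `K` (`RankLe`): as a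
function of the adjacency matrix, the bit is a sum of `r` products of a function of the entries of a
certain block (with `N ^ 2` entries) and a function of the other entries. For instance polynomials with
`r` monomials, sums of `r` products over the entries, parity decision trees of depth `(log₂ r) / 2`, and
algorithms with a memory of `s` bits which read the adjacency matrix `p` times, the entries of the block
before the others, with `2 p s ≤ log₂ r`, are of this kind (these examples are not used below).

1. If `3 ≤ k` and `3 N + k - 3 ≤ n`, then `2 ^ (N ^ 2) ≤ (r + 1) ^ (q (2 v + 1) ^ d)`.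
2. So for all functions `f`, `g`, all `c`, `d`, `k ≥ 3`, `ε > 0` and all large `n`: if
   `v ≤ g k * (log₂ (f k * n ^ c) + 1)`, as for reductions to `p-log-SAT(Γ_{1,d})`, then
   `q log₂ (r + 1) ≥ n ^ (2 - ε)`. In this model `W[1]` is not contained in `M[1]`, even if the rank may
   be as large as `2 ^ (n ^ (2 - ε))` and with `n ^ (2 - ε)` questions.
3. The constant width of the clauses is essential: for `n = 2 ^ b` there is a reduction with one
   question, `k b` variables, clauses of `2 b` literals and rank one.

Proof of 1: the cliques of certain graphs with `3 N + k - 3` vertices detect whether `S ⊆ T` for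
`S, T ⊆ N × N`, where `S` is given by the block and `T` by the other entries. The matrix `[S ⊆ T]` has
full rank, and it is a function of the `q (2 v + 1) ^ d` clause bits, so all its rows are
combinations of at most `(r + 1) ^ (q (2 v + 1) ^ d)` products.
-/

set_option autoImplicit false

namespace Pool.Agent.Results.MP_ddf912_lc.CommunicationRank

open Pool.Agent.T6.H47.CR

theorem result :
    (∀ (K : Type) [Field K] (n k N q v d r : ℕ), 3 ≤ k → 3 * N + (k - 3) ≤ n →
      ∀ (F : Fin q → Clause v d → SimpleGraph (Fin n) → Prop) (ev : (Fin q → Prop) → Prop),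
        IsReduction k F ev → (∀ i cl, RankLe K N n r (F i cl)) →
        2 ^ (N * N) ≤ (r + 1) ^ (q * (2 * v + 1) ^ d)) ∧
    (∀ (f g : ℕ → ℕ) (c d k : ℕ), 3 ≤ k → ∀ ε : ℝ, 0 < ε → ∃ n0 : ℕ, ∀ n ≥ n0,
      ∀ (K : Type) [Field K] (q v r : ℕ) (F : Fin q → Clause v d → SimpleGraph (Fin n) → Prop)
        (ev : (Fin q → Prop) → Prop),
        (v : ℝ) ≤ g k * (Real.logb 2 (f k * (n : ℝ) ^ c) + 1) → IsReduction k F ev →
        (∀ i cl, RankLe K (n / 4) n r (F i cl)) →
        (n : ℝ) ^ (2 - ε) ≤ q * Real.logb 2 (r + 1)) ∧
    (∀ (K : Type) [Field K] (N k b : ℕ),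
      ∃ (F : Fin 1 → Clause (k * b) (2 * b) → SimpleGraph (Fin (2 ^ b)) → Prop)
        (ev : (Fin 1 → Prop) → Prop),
        IsReduction k F ev ∧ ∀ i cl, RankLe K N (2 ^ b) 1 (F i cl)) := by
  refine ⟨?_, ?_, ?_⟩
  · intro K _ n k N q v d r hk hn F ev hF hr
    exact red_bound K hk hn F ev hF hr
  · intro f g c d k hk ε hε
    exact fpt_bound f g c d k hk ε hε
  · intro K _ N k b
    exact upper K N k b

end Pool.Agent.Results.MP_ddf912_lc.CommunicationRank
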