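import Pool.Agent.T6.H97.SR.Fpt

/-!
# `M[1]` and `W[1]`: adaptive reductions which respect the symmetries of the input

The reductions (`Red`, `Pool/Agent/T6/H97/SR/Defs.lean`) work on graphs whose vertices are divided
into `k` blocks of `2 ^ b` vertices, and whose edges join different blocks. They may ask any number of
questions, each may depend on the answers before. A question is a CNF formula with any number `w` of
literals per clause; for each possible clause a semidefinite program computes from the graph whether
the clause belongs to the formula, and the question is whether the formula is satisfiable. The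
reduction has to respect the symmetries: the permutations of the vertices inside the blocks act on
the literals in some way `ρ`, and if a permutation fixes all literals of a clause then the program of
the clause is symmetric under it. It is also allowed to mark some of the blocks (for example to fix a
vertex there); the marked blocks need not be treated symmetrically. The reductions may be random.

1. Fewer than `2 ^ (b - 1)` variables are not enough (there are `k 2 ^ b` vertices): for every
   `ε > 0` there is `C` such that for `k, b ≥ C` no such reductions with programs of order at most
   `2 ^ (k b / C)` and at most `k / C` marked blocks tell the graphs with a `k`-clique from the graphs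
   all of whose cliques have at most `ε k` vertices.
2. So `p-CLIQUE`, even with any constant gap, has no such reductions of fpt size to `p-log-SAT`
   (at most `g(k) log n` variables, clauses of any width): `W[1]` is not contained in `M[1]` in this
   model, also not with respect to random adaptive (Turing) reductions.
3. `k 2 ^ b` variables (one for each vertex) are enough: there is a reduction with programs of order
   zero, without marked blocks, and without error (the one of the proof has one question).

Proof of 1: alternating groups do not act on smaller sets, so all programs are symmetric under even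
permutations. There is a pair of graphs such that all small programs which are symmetric under even
permutations give the same answers, up to a shift of the graphs inside the marked blocks
(`Pool/Agent/H550R2/Cl`, for all permutations).
-/

set_option autoImplicit false

namespace Pool.Agent.Results.MP_ddf912_lc.EquivariantReductions

open Pool.Agent.T6.H97.SR

/-- (1) For every `ε > 0` there is `C ≥ 1` such that for `k, b ≥ C`, `2 m < 2 ^ b`: for every random
adaptive reduction with programs of order at most `2 ^ (k b / C)`, formulas with at most `m`
variables, and at most `k / C` marked blocks, there are `k`-partite graphs `G` with a `k`-clique and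
`H` without clique of more than `ε k` vertices such that `G` is accepted with at most the probability
of `H`. (2) The same for all large `k` and then all large `b`, if the programs have order at most
`f(k) n ^ c`, the formulas at most `g(k) log n` variables, and at most `c` blocks are marked
(`n = k 2 ^ b`). (3) A reduction with formulas of `k 2 ^ b` variables, programs of order `0`, no marked
blocks and no errors. -/
theorem result :
    (∀ ε : ℝ, 0 < ε → ∃ C : ℕ, 0 < C ∧ ∀ k b : ℕ, C ≤ k → C ≤ b → ∀ m : ℕ, 2 * m < 2 ^ b →
      ∀ R : RRed k b, (∀ ω, (R.red ω).Ok (2 ^ (k * b / C)) m (k / C) ∅) →
        ∃ G H : SimpleGraph (Fin k × (Fin b → ZMod 2)), Partite G ∧ Partite H ∧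
          k ≤ G.cliqueNum ∧ (H.cliqueNum : ℝ) ≤ ε * k ∧ R.acc G ≤ R.acc H) ∧
    (∀ ε : ℝ, 0 < ε → ∀ (f g : ℕ → ℕ) (c : ℕ), ∃ K, ∀ k, K ≤ k → ∃ B, ∀ b, B ≤ b →
      ∀ R : RRed k b,
        (∀ ω, (R.red ω).Ok (f k * (k * 2 ^ b) ^ c) (g k * Nat.log 2 (k * 2 ^ b)) c ∅) →
        ∃ G H : SimpleGraph (Fin k × (Fin b → ZMod 2)), Partite G ∧ Partite H ∧
          k ≤ G.cliqueNum ∧ (H.cliqueNum : ℝ) ≤ ε * k ∧ R.acc G ≤ R.acc H) ∧
    (∀ k b : ℕ, 1 ≤ b → ∃ R : Red k b, R.Ok 0 (k * 2 ^ b) 0 ∅ ∧
      ∀ G : SimpleGraph (Fin k × (Fin b → ZMod 2)), Partite G →
        (R.run G = true ↔ k ≤ G.cliqueNum)) := by
  refine ⟨?_, fpt, fun k b hb => ⟨upR k b, upR_ok hb, upR_run hb⟩⟩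
  intro ε hε
  obtain ⟨C, hC0, hC⟩ := lower ε hε
  exact ⟨C, hC0, fun k b hk hb m hm R hR => (hC k b hk hb m hm R hR).1⟩

end Pool.Agent.Results.MP_ddf912_lc.EquivariantReductions
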