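import Pool.Agent.T6.H87.M1.Main

/-!
# `W[1]` and `M[1]`: reductions by circuits whose gates solve linear and convex programs

We consider reductions of `p-CLIQUE` to `p-log-SAT(Γ_{1,d})`. They are computed by circuits
(`Circuit`, `Pool/Agent/T6/H87/M1/Defs.lean`) with real values on the wires, with the gates

* arbitrary nondecreasing real functions of at most `b` numbers,
* span gates: each threshold function of the gate is computed by a monotone span program with at
  most `m` rows over some field, whose rows are switched on by thresholds of the inputs; for instance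
  AND and OR of unbounded fan-in, linear algebra over any field,
* program gates: each threshold of the gate is decided by the feasibility of a convex program with
  `m` blocks of `D` variables (each in some compact convex set, e.g. a spectrahedron), and `m`
  linear inequalities, whose right sides increase if certain inputs reach certain thresholds; below
  the threshold the program is infeasible even if the right sides are increased by `1 / m`,
* free gates: arbitrary functions of thresholded inputs; a free gate with `w` wires contributes the
  factor `w + 1` to the number `freedom`. For example `t` NOT gates have the freedom `2 ^ t`.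

The output bits of the circuit are thresholds of gates or negations of thresholds.

* Part 1: if a circuit of this kind with `n ^ o(k)` gates computes for the graphs with `n` vertices
  output bits from which it can be seen (in any way) whether there is a clique with `k` vertices, then
  `(number of output bits + 1) * freedom` is larger than `n ^ (2 - ε)`. The exponent `2` is best
  possible, since the graph has `n (n - 1) / 2` bits.
* Part 2: so there are no truth-table reductions of fpt size of `p-CLIQUE` to `p-log-SAT(Γ_{1,d})`
  with `q` questions, if `(q + 1) * freedom ≤ n ^ (2 - ε)`. The answer may be an arbitrary function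
  `ev` of the answers to the questions; many-one reductions are the case `q = 1`, `ev u = u 0`.
-/

set_option autoImplicit false

namespace Pool.Agent.Results.MP_ddf912_lc.ProgramGateReductions

open Filter Pool.Agent.T6.H87.M1
open Pool.Agent.W969.MC (grf)
open Pool.Agent.H679R2.M1 (Clause Sat)

theorem result :
    -- 1. compression of the clique problem
    (∀ ε : ℝ, 0 < ε → ε < 1 → ∀ b k : ℕ, 2 ≤ b → 10 ^ 13 * b ≤ k → ∃ n₀ : ℕ, ∀ n : ℕ, n₀ ≤ n →
      ∀ (m D : ℕ) (C : Circuit (Pairs n)) (O : Type) [Fintype O] (out : O → Output C)
        (L : Set (O → Bool)),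
        (m : ℝ) ≤ (n : ℝ) ^ (ε * k / 10 ^ 15) → (D : ℝ) ≤ (n : ℝ) ^ (ε / 63) → C.Uses b m D →
        ((C.size + Fintype.card O + 1 : ℕ) : ℝ) ≤ (n : ℝ) ^ (ε * k / (10 ^ 15 * b)) →
        Reduces C out L (fun x => ¬ (grf x).CliqueFree k) (fun x => (grf x).CliqueFree k) →
        (n : ℝ) ^ (2 - ε) < (((Fintype.card O + 1) * C.freedom : ℕ) : ℝ)) ∧
    -- 2. reductions of the clique problem to satisfiability of short formulas
    (∀ ε : ℝ, 0 < ε → ε < 1 → ∀ b : ℕ, 2 ≤ b → ∀ (f g : ℕ → ℕ) (c d : ℕ),
      ∀ᶠ k : ℕ in atTop, ∀ᶠ n : ℕ in atTop,
      ∀ (q v m D : ℕ) (C : Circuit (Pairs n)) (out : Fin q × Clause v d → Output C)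
        (ev : (Fin q → Prop) → Prop),
        v ≤ g k * (Nat.log 2 (f k * n ^ c) + 1) → m ≤ f k * n ^ c →
        (D : ℝ) ≤ (n : ℝ) ^ (ε / 126) → C.Uses b m D → C.size ≤ f k * n ^ c →
        Reduces C out (Questions ev) (fun x => ¬ (grf x).CliqueFree k)
          (fun x => (grf x).CliqueFree k) →
        (n : ℝ) ^ (2 - ε) < (((q + 1) * C.freedom : ℕ) : ℝ)) := by
  refine ⟨?_, ?_⟩
  · intro ε hε hε1 b k hb hk
    obtain ⟨n0, h⟩ := clique_lower ε hε hε1 b k hb hk
    exact ⟨n0, fun n hn m D C O _ out L hm hD hC hS hR => (h n hn m D hm hD).reduces C out L hC hR hS⟩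
  · intro ε hε hε1 b hb f g c d
    have hb0 : (0 : ℝ) < b := by exact_mod_cast (by omega : 0 < b)
    have h1 : Tendsto (fun k : ℕ => (k : ℝ)) atTop atTop := tendsto_natCast_atTop_atTop
    refine m1_general (P := Pairs) (Yes := fun k n x => ¬ (grf x).CliqueFree k)
      (No := fun k n x => (grf x).CliqueFree k) (b := b) (e := 2) (ε := ε) (η := ε / 126)
      (σ := fun k => ε / 2 * k / (10 ^ 15 * b)) (μ := fun k => ε / 2 * k / 10 ^ 15)
      (by norm_num) hε ?_ ?_ ?_ f g c d
    · refine (h1.const_mul_atTop (r := ε / 2 / (10 ^ 15 * b)) (by positivity)).congr fun k => ?_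
      ring
    · refine (h1.const_mul_atTop (r := ε / 2 / 10 ^ 15) (by positivity)).congr fun k => ?_
      ring
    · filter_upwards [eventually_ge_atTop (10 ^ 13 * b)] with k hk
      obtain ⟨n0, h⟩ := clique_lower (ε / 2) (by linarith) (by linarith) b k hb hk
      refine ⟨n0, fun n hn m D hm hD => h n hn m D hm ?_⟩
      rwa [show ε / 2 / 63 = ε / 126 by ring]

end Pool.Agent.Results.MP_ddf912_lc.ProgramGateReductions
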