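import Pool.Agent.T6.H49.RO.Ae
import Pool.Agent.T6.H49.RO.Dense

/-!
# `M[1]` and `W[1]` relative to random oracles: the threshold for the density

Let `p : ℕ → [0, 1]`, and let `A` be a random oracle which contains every string of length `ℓ` with
probability `p ℓ`, independently of the other strings.

(1) Suppose that the smaller one of the numbers `p ℓ` and `1 - p ℓ` is `ℓ ^ (- o(1))`, in the
effective form that `1 ≤ f w * (ℓ + 1) * (min (p ℓ) (1 - p ℓ)) ^ w` for all `w` and `ℓ`, with a
computable function `f` (for example `p = 1 / 2` or `p ℓ = 1 / log ℓ`). Then there is an oracle `E`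
such that for almost every `A`, relative to `A` and `E`, every problem in `W[1]` is fixed-parameter
tractable. In particular `M[1] = W[1]`.

(2) Suppose that `p ℓ ≤ ℓ ^ (- 1 / e)` for some `e` and all large `ℓ`, and that `p` is positive and
`log (1 / p ℓ) = ℓ ^ o(1)`. Then for every oracle `E` and for almost every `A`, relative to `A` and
`E`, `W[1]` is not contained in `M[1]`, even if `M[1]` is replaced by the larger class of all problems
which are mapped, by a polynomial-time algorithm after an arbitrary precomputation on the parameter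
`k`, to instances of length `(h k * log n) ^ c` of a problem in `NP`.

Idea of (2): the instance has `N` elements with labels of `n = (log N) ^ ω(1)` bits, so that the
short instance of the `NP` problem cannot ask the questions which matter. There is a solution if for
one of the `N ^ k` tuples `w` long strings, which belong to this tuple only, are all in `A`; the
numbers are such that the expected number of solutions is a constant less than one. If one of the
tuples, chosen at random, is made a solution, then the answer changes, but the reduction does not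
notice; and the distribution of the changed oracle is absolutely continuous with respect to the
distribution of `A`, with a density which is the number of solutions divided by its mean.
-/

set_option autoImplicit false

namespace Pool.Agent.Results.MP_ddf912_lc.RandomOracleDensity

open Filter MeasureTheory
open Pool.Agent.NPC Pool.Agent.H620R2.Gauge Pool.Agent.Y626.WG
open Pool.Agent.TH678.GC (join)
open Pool.Agent.Y626.WC (InFPT)
open Pool.Agent.Y581.WN (InM1n)
open Pool.Agent.T6.H49.RO (randomP)

theorem result (p : ℕ → unitInterval) :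
    ((∃ f : ℕ → ℕ, Computable f ∧
        ∀ w ℓ : ℕ, 1 ≤ (f w : ℝ) * (ℓ + 1) * min (p ℓ : ℝ) (1 - p ℓ) ^ w) →
      ∃ E : Oracle, ∀ᵐ A ∂randomP p, ∀ (α : Type) [TEnc α] (κ : α → ℕ) (P : α → Prop),
        InW 1 (join A E) κ P ↔ InFPT (join A E) κ P) ∧
    ((∀ᶠ ℓ : ℕ in atTop, 0 < (p ℓ : ℝ)) →
      (∃ e : ℕ, ∀ᶠ ℓ : ℕ in atTop, (p ℓ : ℝ) ^ e * ℓ ≤ 1) →
      (∀ d : ℕ, ∀ᶠ ℓ : ℕ in atTop, (-Real.log (p ℓ)) ^ d ≤ ℓ) →
      ∀ E : Oracle, ∀ᵐ A ∂randomP p,
        InW 1 (join A E) (fun I : WInst 1 => I.1.param) (fun I => I.1.Sat (join A E)) ∧
        ¬ InM1n (join A E) (fun I : WInst 1 => I.1.param) (fun I => I.1.Sat (join A E))) := by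
  refine ⟨?_, fun hpos hup hlow E => ?_⟩
  · rintro ⟨f, hfc, hf⟩
    obtain ⟨E, hE⟩ := Pool.Agent.T6.H49.RO.dense p hfc hf
    refine ⟨E, ?_⟩
    filter_upwards [hE] with A hA α _ κ P
    exact ⟨hA α κ P, Pool.Agent.T6.H49.RO.inW_of_inFPT⟩
  · filter_upwards [Pool.Agent.T6.H49.RO.sparse p hpos hup hlow E] with A hA
    exact ⟨mc_inW _ _, hA⟩

end Pool.Agent.Results.MP_ddf912_lc.RandomOracleDensity
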